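import Pool.Agent.H758R2.HO.Com

/-!
ROOM HO (helper640), task COM: the family `W_{μ,ε}` is a cometric.
-/

open Metric
open scoped Topology ContDiff RealInnerProductSpace

noncomputable section

namespace H640HO

open Pool.Agent.H821R3 H907H H758H

/-- The cometric with matrix
`K z (L,M) = (L + W(L+M) + l Q L + ε⟨M,x⟩ v, M + W(L+M) + ε⟨L,v⟩ x)`, `x = z.1`,
`W = 1 + μ(e₁e₃ᵀ+e₃e₁ᵀ)`, `Q = diag(3,0,-1)`, `v = (1,1,0)`, `l = ε²/(128 μ²)`. -/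
theorem cometric_of {μ ε l : ℝ} (hμ0 : 0 < μ) (hμ : μ ≤ 1 / 2) (hε0 : 0 < ε)
    (hε : ε ≤ min (1 / 4) μ) (hl : l = 1 / 128 / μ ^ 2 * ε ^ 2) (Wm Qm : V3 → V3) (v : V3)
    (hW0 : ∀ s, (Wm s) 0 = s 0 + μ * s 2) (hW1 : ∀ s, (Wm s) 1 = s 1)
    (hW2 : ∀ s, (Wm s) 2 = μ * s 0 + s 2)
    (hQ0 : ∀ s, (Qm s) 0 = 3 * s 0) (hQ1 : ∀ s, (Qm s) 1 = 0) (hQ2 : ∀ s, (Qm s) 2 = -s 2)
    (hv0 : v 0 = 1) (hv1 : v 1 = 1) (hv2 : v 2 = 0)
    (K : A6 → A6 →L[ℝ] A6) (hs : ContDiff ℝ ∞ K)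
    (hK : ∀ z u : A6, K z u = (u.1 + Wm (u.1 + u.2) + l • Qm u.1 + (ε * ⟪u.2, z.1⟫) • v,
      u.2 + Wm (u.1 + u.2) + (ε * ⟪u.1, v⟫) • z.1)) :
    Cometric (WK K) := by
  refine cometric_WK hs ?_ ?_
  · intro z a b
    rw [hK, hK]
    simp only [pr, inner3, PiLp.add_apply, PiLp.smul_apply, smul_eq_mul, hW0, hW1, hW2, hQ0, hQ1,
      hQ2, hv0, hv1, hv2]
    ring
  · intro z hz1 _ u hu _ _
    have hx : z.1 0 ^ 2 + z.1 1 ^ 2 + z.1 2 ^ 2 = 1 := by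
      rw [← norm_sq3, hz1, one_pow]
    have hε1 : ε ≤ 1 / 4 := hε.trans (min_le_left _ _)
    have hε2 : ε ≤ μ := hε.trans (min_le_right _ _)
    have hl0 : 0 ≤ l := by rw [hl]; positivity
    have hl1 : l ≤ 1 / 128 := by
      rw [hl]
      have h1 : ε ^ 2 ≤ μ ^ 2 := pow_le_pow_left₀ hε0.le hε2 2
      have h2 : 0 < μ ^ 2 := by positivity
      rw [div_div, div_mul_eq_mul_div, one_mul, div_le_div_iff₀ (by positivity) (by norm_num)]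
      nlinarith
    have hpos : 0 < ‖u.1‖ ^ 2 + ‖u.2‖ ^ 2 := by
      by_contra hcon
      have h1 := sq_nonneg ‖u.1‖
      have h2 := sq_nonneg ‖u.2‖
      have h3 : ‖u.1‖ ^ 2 = 0 := by linarith
      have h4 : ‖u.2‖ ^ 2 = 0 := by linarith
      exact hu (Prod.ext (norm_eq_zero.1 (pow_eq_zero_iff two_ne_zero |>.1 h3))
        (norm_eq_zero.1 (pow_eq_zero_iff two_ne_zero |>.1 h4)))
    rw [norm_sq3, norm_sq3] at hpos
    rw [hK]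
    simp only [pr, inner3, PiLp.add_apply, PiLp.smul_apply, smul_eq_mul, hW0, hW1, hW2, hQ0, hQ1,
      hQ2, hv0, hv1, hv2]
    generalize u.1 0 = a at *
    generalize u.1 1 = b at *
    generalize u.1 2 = c at *
    generalize u.2 0 = d at *
    generalize u.2 1 = e at *
    generalize u.2 2 = f at *
    generalize z.1 0 = x at *
    generalize z.1 1 = y at *
    generalize z.1 2 = w at *
    -- Cauchy–Schwarz for `⟨M, x⟩` and `⟨L, v⟩`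
    have hM : (d * x + e * y + f * w) ^ 2 ≤ d ^ 2 + e ^ 2 + f ^ 2 := by
      nlinarith [sq_nonneg (d * y - e * x), sq_nonneg (d * w - f * x), sq_nonneg (e * w - f * y)]
    have hL : (a + b) ^ 2 ≤ 2 * (a ^ 2 + b ^ 2 + c ^ 2) := by
      nlinarith [sq_nonneg (a - b), sq_nonneg c]
    have hcross : -(2 * (d ^ 2 + e ^ 2 + f ^ 2) + (a ^ 2 + b ^ 2 + c ^ 2)) ≤
        2 * ((d * x + e * y + f * w) * (a + b)) := by
      nlinarith [sq_nonneg (2 * (d * x + e * y + f * w) + (a + b))]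
    have hWp : 0 ≤ (a + d) ^ 2 + (b + e) ^ 2 + (c + f) ^ 2 + 2 * μ * (a + d) * (c + f) := by
      nlinarith [sq_nonneg ((a + d) + (c + f)), sq_nonneg ((a + d) - (c + f)),
        sq_nonneg (b + e), sq_nonneg (a + d), sq_nonneg (c + f)]
    have h1 : ε * (-(2 * (d ^ 2 + e ^ 2 + f ^ 2) + (a ^ 2 + b ^ 2 + c ^ 2))) ≤
        ε * (2 * ((d * x + e * y + f * w) * (a + b))) := mul_le_mul_of_nonneg_left hcross hε0.le
    have h2 : -(l * (a ^ 2 + b ^ 2 + c ^ 2)) ≤ l * (3 * a ^ 2 - c ^ 2) := by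
      nlinarith [mul_nonneg hl0 (sq_nonneg a), mul_nonneg hl0 (sq_nonneg b)]
    have h3 : l * (a ^ 2 + b ^ 2 + c ^ 2) ≤ 1 / 128 * (a ^ 2 + b ^ 2 + c ^ 2) :=
      mul_le_mul_of_nonneg_right hl1 (by positivity)
    have h4 : ε * (2 * (d ^ 2 + e ^ 2 + f ^ 2) + (a ^ 2 + b ^ 2 + c ^ 2)) ≤
        1 / 4 * (2 * (d ^ 2 + e ^ 2 + f ^ 2) + (a ^ 2 + b ^ 2 + c ^ 2)) :=
      mul_le_mul_of_nonneg_right hε1 (by positivity)
    have h5 : 0 ≤ a ^ 2 + b ^ 2 + c ^ 2 := by positivity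
    have h6 : 0 ≤ d ^ 2 + e ^ 2 + f ^ 2 := by positivity
    nlinarith

end H640HO
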